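import Pool.Agent.helper93.VN.SpecL
import Pool.Agent.helper94.VQ.RDR

/-!
# Project VN (MP_07c750_an), block LD, row LDR: finite differences of a curve in the cone
-/

set_option autoImplicit false

open scoped MatrixGroups ContDiff Topology UpperHalfPlane ComplexConjugate ENNReal
open UpperHalfPlane MeasureTheory Filter Set

namespace Pool.Agent.VN

open Pool.Agent.RS Pool.Agent.VQ
open Pool.Agent.VQE (nm)

theorem LDR_am {u w A B : ℝ} (hu : |u| ≤ A) (hw : |w| ≤ B) : |u * w| ≤ A * B := by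
  rw [abs_mul]
  exact mul_le_mul hu hw (abs_nonneg _) ((abs_nonneg _).trans hu)

/-- sizes of the derivative -/
theorem LDR_size (C J W S x b c ρ ν κ : ℝ) (hC : 1 ≤ C) (hJ0 : 0 < J) (hJ : J = -(ρ * (b + c)))
    (hW : W = (b - c) - ν / (2 * ρ ^ 2) * (b + c) - κ * x / ρ) (hS : S = x / ρ) (hρ : 1 / C ≤ ρ) (hρ' : ρ ≤ C) (hρ2 : 1 / C ≤ ρ ^ 2)
    (hν : |ν| ≤ C) (hκ : |κ| ≤ C) (hJW : J ≤ 3 * C * W) (hWJ : W ≤ 3 * C * J) (hSJ : |S| ≤ 18 * C ^ 3 * J) :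
    |x| ≤ 18 * C ^ 4 * J ∧ |b + c| ≤ C * J ∧ |b| ≤ 12 * C ^ 4 * J ∧ |c| ≤ 12 * C ^ 4 * J := by
  have hC0 : 0 < C := by linarith
  have hρ0 : 0 < ρ := lt_of_lt_of_le (by positivity) hρ
  have hi : |ρ⁻¹| ≤ C := by
    rw [abs_of_pos (inv_pos.2 hρ0)]
    rw [inv_le_comm₀ hρ0 hC0, ← one_div]
    exact hρ
  have hi2 : |(ρ ^ 2)⁻¹| ≤ C := by
    have h0 : 0 < ρ ^ 2 := by positivity
    rw [abs_of_pos (inv_pos.2 h0)]
    rw [inv_le_comm₀ h0 hC0, ← one_div]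
    exact hρ2
  have hx : |x| ≤ 18 * C ^ 4 * J := by
    have h1 : x = S * ρ := by rw [hS]; field_simp
    have h2 : |ρ| ≤ C := by rw [abs_of_pos hρ0]; exact hρ'
    have h3 := LDR_am hSJ h2
    rw [← h1] at h3
    calc |x| ≤ 18 * C ^ 3 * J * C := h3
      _ = 18 * C ^ 4 * J := by ring
  have hbc : |b + c| ≤ C * J := by
    have h1 : b + c = -(ρ⁻¹ * J) := by rw [hJ]; field_simp
    have h2 : |J| ≤ J := le_of_eq (abs_of_pos hJ0)
    have h3 := LDR_am hi h2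
    rw [h1, abs_neg]
    exact h3
  have hW' : |W| ≤ 3 * C * J := by
    rw [abs_le]
    have h1 : 0 ≤ W := by
      by_contra h
      push Not at h
      have : 3 * C * W < 0 := mul_neg_of_pos_of_neg (by positivity) h
      linarith
    constructor
    · have : 0 ≤ 3 * C * J := by positivity
      linarith
    · exact hWJ
  have hdiff : |b - c| ≤ 22 * C ^ 4 * J := by
    have h1 : b - c = W + 1 / 2 * (ν * (ρ ^ 2)⁻¹ * (b + c)) + κ * S := by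
      rw [hW, hS]
      field_simp
      ring
    have h2 := LDR_am (LDR_am hν hi2) hbc
    have h3 := LDR_am hκ hSJ
    have p1 : C * J ≤ C ^ 4 * J := mul_le_mul_of_nonneg_right (le_self_pow₀ hC (by norm_num)) hJ0.le
    have p2 : C ^ 3 * J ≤ C ^ 4 * J := mul_le_mul_of_nonneg_right (pow_le_pow_right₀ hC (by norm_num)) hJ0.le
    obtain ⟨a1, a2⟩ := abs_le.1 hW'
    obtain ⟨a3, a4⟩ := abs_le.1 h2
    obtain ⟨a5, a6⟩ := abs_le.1 h3
    rw [h1, abs_le]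
    constructor <;> linarith
  have p1 : C * J ≤ C ^ 4 * J := mul_le_mul_of_nonneg_right (le_self_pow₀ hC (by norm_num)) hJ0.le
  obtain ⟨a1, a2⟩ := abs_le.1 hbc
  obtain ⟨a3, a4⟩ := abs_le.1 hdiff
  refine ⟨hx, hbc, ?_, ?_⟩
  · rw [abs_le]
    constructor <;> linarith
  · rw [abs_le]
    constructor <;> linarith

/-- comparison of the derivatives at one point -/
theorem LDR_pt (C N J W x b c ρ ν κ ρ0 ν0 κ0 p q r s : ℝ) (hC : 1 ≤ C) (hJ0 : 0 < J) (hN0 : 0 ≤ N) (hN : 20000 * (C ^ 9 * N) ≤ 1)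
    (hJ : J = -(ρ * (b + c))) (hW : W = (b - c) - ν / (2 * ρ ^ 2) * (b + c) - κ * x / ρ)
    (hρ : 1 / C ≤ ρ) (hρ2 : 1 / C ≤ ρ ^ 2) (hρ0 : 1 / C ≤ ρ0) (hρ0' : ρ0 ≤ C) (hρ02 : 1 / C ≤ ρ0 ^ 2)
    (hν : |ν| ≤ C) (hκ : |κ| ≤ C) (hν0 : |ν0| ≤ C) (hκ0 : |κ0| ≤ C)
    (dρ : |ρ - ρ0| ≤ C * N) (dκ : |κ - κ0| ≤ C * N) (dν : |ν - ν0| ≤ C * N) (dρ2 : |ρ ^ 2 - ρ0 ^ 2| ≤ C * N)
    (hx : |x| ≤ 18 * C ^ 4 * J) (hbc : |b + c| ≤ C * J) (hb : |b| ≤ 12 * C ^ 4 * J) (hc : |c| ≤ 12 * C ^ 4 * J)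
    (hp : |p - 1| ≤ N) (hq : |q| ≤ N) (hr : |r| ≤ N) (hs : |s - 1| ≤ N) :
    |-(ρ0 * ((p * b + q * -(x / 2)) + (r * (x / 2) + s * c))) - J| ≤ J / 100 ∧
    |(((p * b + q * -(x / 2)) - (r * (x / 2) + s * c)) - ν0 / (2 * ρ0 ^ 2) * ((p * b + q * -(x / 2)) + (r * (x / 2) + s * c)) -
      κ0 * ((p * (x / 2) + q * c) - (r * b + s * -(x / 2))) / ρ0) - W| ≤ J / (100 * C) ∧
    |(p * (x / 2) + q * c) - (r * b + s * -(x / 2))| ≤ 19 * C ^ 4 * J := by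
  have hC0 : 0 < C := by linarith
  have hρp : 0 < ρ := lt_of_lt_of_le (by positivity) hρ
  have hρ0p : 0 < ρ0 := lt_of_lt_of_le (by positivity) hρ0
  have hinv : ∀ z : ℝ, 0 < z → 1 / C ≤ z → |z⁻¹| ≤ C := by
    intro z hz h
    rw [abs_of_pos (inv_pos.2 hz)]
    rw [inv_le_comm₀ hz hC0, ← one_div]
    exact h
  have hi := hinv ρ hρp hρ
  have hi0 := hinv ρ0 hρ0p hρ0
  have hi2 := hinv (ρ ^ 2) (by positivity) hρ2
  have hi02 := hinv (ρ0 ^ 2) (by positivity) hρ02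
  have hx2 : |x / 2| ≤ 9 * C ^ 4 * J := by
    rw [abs_div, abs_two]
    linarith
  -- the errors
  have f1 := LDR_am hp hb
  have f2 := LDR_am hq hx2
  have f3 := LDR_am hr hx2
  have f4 := LDR_am hs hc
  have f5 := LDR_am hp hx2
  have f6 := LDR_am hs hx2
  have f7 := LDR_am hq hc
  have f8 := LDR_am hr hb
  obtain ⟨f11, f12⟩ := abs_le.1 f1
  obtain ⟨f21, f22⟩ := abs_le.1 f2
  obtain ⟨f31, f32⟩ := abs_le.1 f3
  obtain ⟨f41, f42⟩ := abs_le.1 f4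
  obtain ⟨f51, f52⟩ := abs_le.1 f5
  obtain ⟨f61, f62⟩ := abs_le.1 f6
  obtain ⟨f71, f72⟩ := abs_le.1 f7
  obtain ⟨f81, f82⟩ := abs_le.1 f8
  have e1 : |((p * b + q * -(x / 2)) - (r * (x / 2) + s * c)) - (b - c)| ≤ 42 * (N * (C ^ 4 * J)) := by
    rw [abs_le]
    constructor <;> linarith
  have e2 : |((p * b + q * -(x / 2)) + (r * (x / 2) + s * c)) - (b + c)| ≤ 42 * (N * (C ^ 4 * J)) := by
    rw [abs_le]
    constructor <;> linarith
  have e3 : |((p * (x / 2) + q * c) - (r * b + s * -(x / 2))) - x| ≤ 42 * (N * (C ^ 4 * J)) := by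
    rw [abs_le]
    constructor <;> linarith
  have hNJ : 0 ≤ N * J := mul_nonneg hN0 hJ0.le
  have hpw : ∀ i j : ℕ, i ≤ j → C ^ i * (N * J) ≤ C ^ j * (N * J) := fun i j hij =>
    mul_le_mul_of_nonneg_right (pow_le_pow_right₀ hC hij) hNJ
  have hNJ1 : 20000 * (C ^ 9 * (N * J)) ≤ J := by
    have := mul_le_mul_of_nonneg_right hN hJ0.le
    linarith
  have hNJ8 : 20000 * (C ^ 8 * (N * J)) ≤ J / C := by
    rw [le_div_iff₀ hC0]
    linarith
  refine ⟨?_, ?_, ?_⟩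
  · have hρ0a : |ρ0| ≤ C := by rw [abs_of_pos hρ0p]; exact hρ0'
    have g1 := LDR_am hρ0a e2
    have g2 := LDR_am dρ hbc
    have h1 : -(ρ0 * ((p * b + q * -(x / 2)) + (r * (x / 2) + s * c))) - J =
        -(ρ0 * (((p * b + q * -(x / 2)) + (r * (x / 2) + s * c)) - (b + c))) + (ρ - ρ0) * (b + c) := by
      rw [hJ]
      ring
    obtain ⟨a1, a2⟩ := abs_le.1 g1
    obtain ⟨a3, a4⟩ := abs_le.1 g2
    have h5 := hpw 5 9 (by norm_num)
    have h6 := hpw 2 9 (by norm_num)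
    rw [h1, abs_le]
    constructor <;> linarith
  · have k1 : |ν0 * (ρ0 ^ 2)⁻¹ - ν * (ρ ^ 2)⁻¹| ≤ 2 * (C ^ 4 * N) := by
      have h1 : ν0 * (ρ0 ^ 2)⁻¹ - ν * (ρ ^ 2)⁻¹ = -((ν - ν0) * (ρ0 ^ 2)⁻¹) + ν * ((ρ ^ 2 - ρ0 ^ 2) * (ρ0 ^ 2)⁻¹ * (ρ ^ 2)⁻¹) := by
        field_simp
        ring
      have g1 := LDR_am dν hi02
      have g2 := LDR_am hν (LDR_am (LDR_am dρ2 hi02) hi2)
      obtain ⟨a1, a2⟩ := abs_le.1 g1
      obtain ⟨a3, a4⟩ := abs_le.1 g2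
      have h2 : C ^ 2 * N ≤ C ^ 4 * N := mul_le_mul_of_nonneg_right (pow_le_pow_right₀ hC (by norm_num)) hN0
      rw [h1, abs_le]
      constructor <;> linarith
    have k2 : |κ0 * ρ0⁻¹ - κ * ρ⁻¹| ≤ 2 * (C ^ 4 * N) := by
      have h1 : κ0 * ρ0⁻¹ - κ * ρ⁻¹ = -((κ - κ0) * ρ0⁻¹) + κ * ((ρ - ρ0) * ρ0⁻¹ * ρ⁻¹) := by
        field_simp
        ring
      have g1 := LDR_am dκ hi0
      have g2 := LDR_am hκ (LDR_am (LDR_am dρ hi0) hi)
      obtain ⟨a1, a2⟩ := abs_le.1 g1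
      obtain ⟨a3, a4⟩ := abs_le.1 g2
      have h2 : C ^ 2 * N ≤ C ^ 4 * N := mul_le_mul_of_nonneg_right (pow_le_pow_right₀ hC (by norm_num)) hN0
      rw [h1, abs_le]
      constructor <;> linarith
    have h1 : (((p * b + q * -(x / 2)) - (r * (x / 2) + s * c)) - ν0 / (2 * ρ0 ^ 2) * ((p * b + q * -(x / 2)) + (r * (x / 2) + s * c)) -
        κ0 * ((p * (x / 2) + q * c) - (r * b + s * -(x / 2))) / ρ0) - W =
        (((p * b + q * -(x / 2)) - (r * (x / 2) + s * c)) - (b - c)) -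
        1 / 2 * (ν0 * (ρ0 ^ 2)⁻¹ * (((p * b + q * -(x / 2)) + (r * (x / 2) + s * c)) - (b + c))) -
        κ0 * ρ0⁻¹ * (((p * (x / 2) + q * c) - (r * b + s * -(x / 2))) - x) -
        1 / 2 * ((ν0 * (ρ0 ^ 2)⁻¹ - ν * (ρ ^ 2)⁻¹) * (b + c)) - (κ0 * ρ0⁻¹ - κ * ρ⁻¹) * x := by
      rw [hW]
      field_simp
      ring
    have g1 := LDR_am (LDR_am hν0 hi02) e2
    have g2 := LDR_am (LDR_am hκ0 hi0) e3
    have g3 := LDR_am k1 hbc
    have g4 := LDR_am k2 hx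
    obtain ⟨a1, a2⟩ := abs_le.1 e1
    obtain ⟨a3, a4⟩ := abs_le.1 g1
    obtain ⟨a5, a6⟩ := abs_le.1 g2
    obtain ⟨a7, a8⟩ := abs_le.1 g3
    obtain ⟨a9, a10⟩ := abs_le.1 g4
    have h4 := hpw 4 8 (by norm_num)
    have h5 := hpw 5 8 (by norm_num)
    have h6 := hpw 6 8 (by norm_num)
    have h7 : J / (100 * C) = J / C / 100 := by
      field_simp
    rw [h1, h7, abs_le]
    constructor <;> linarith
  · obtain ⟨a1, a2⟩ := abs_le.1 e3
    obtain ⟨a3, a4⟩ := abs_le.1 hx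
    have h4 := hpw 4 9 (by norm_num)
    have h5 : J ≤ C ^ 4 * J := by
      have := mul_le_mul_of_nonneg_right (one_le_pow₀ hC : 1 ≤ C ^ 4) hJ0.le
      linarith
    rw [abs_le]
    constructor <;> linarith

theorem LDR_lo (f f' c ℓ : ℝ → ℝ) (hf : ∀ t, HasDerivAt f (f' t) t) (hl : ∀ t, HasDerivAt ℓ (c t) t) (a b : ℝ) (hab : a ≤ b)
    (K : ℝ) (h : ∀ t ∈ Icc a b, K * c t ≤ f' t) : K * (ℓ b - ℓ a) ≤ f b - f a := by
  have h1 : MonotoneOn (fun s => f s - K * ℓ s) (Icc a b) := by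
    refine monotoneOn_of_deriv_nonneg (convex_Icc a b) ?_ ?_ ?_
    · exact fun s _ => ((hf s).sub ((hl s).const_mul K)).continuousAt.continuousWithinAt
    · exact fun s _ => ((hf s).sub ((hl s).const_mul K)).differentiableAt.differentiableWithinAt
    · intro s hs
      have hd : HasDerivAt (fun s => f s - K * ℓ s) (f' s - K * c s) s := (hf s).sub ((hl s).const_mul K)
      rw [hd.deriv]
      have := h s (interior_subset hs)
      linarith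
  have h3 := h1 ⟨le_rfl, hab⟩ ⟨hab, le_rfl⟩ hab
  simp only at h3
  linarith

theorem LDR_hi (f f' c ℓ : ℝ → ℝ) (hf : ∀ t, HasDerivAt f (f' t) t) (hl : ∀ t, HasDerivAt ℓ (c t) t) (a b : ℝ) (hab : a ≤ b)
    (K : ℝ) (h : ∀ t ∈ Icc a b, f' t ≤ K * c t) : f b - f a ≤ K * (ℓ b - ℓ a) := by
  have h1 := LDR_lo (fun s => -f s) (fun s => -f' s) c ℓ (fun s => (hf s).neg) hl a b hab (-K) (fun t ht => by
    have := h t ht
    linarith)
  linarith

theorem LDR_proof : LDR_stmt := by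
  intro k C D hF E γ x b c ℓ hE hCN v v' hv hL y hy
  subst hy
  have hC1 : 1 ≤ C := hF.c1
  have hC0 : 0 < C := by linarith
  -- the entries of the difference
  set p : ℝ → ℝ := fun t => ((γ v)⁻¹ * γ t).1 0 0 with hp
  set q : ℝ → ℝ := fun t => ((γ v)⁻¹ * γ t).1 0 1 with hq
  set r : ℝ → ℝ := fun t => ((γ v)⁻¹ * γ t).1 1 0 with hr
  set s : ℝ → ℝ := fun t => ((γ v)⁻¹ * γ t).1 1 1 with hs
  have dp : ∀ t, HasDerivAt p (p t * (x t / 2) + q t * c t) t := fun t => (RDR_der (γ v)⁻¹ γ x b c hCN.toCv t 0).1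
  have dq : ∀ t, HasDerivAt q (p t * b t + q t * -(x t / 2)) t := fun t => (RDR_der (γ v)⁻¹ γ x b c hCN.toCv t 0).2
  have dr' : ∀ t, HasDerivAt r (r t * (x t / 2) + s t * c t) t := fun t => (RDR_der (γ v)⁻¹ γ x b c hCN.toCv t 1).1
  have ds : ∀ t, HasDerivAt s (r t * b t + s t * -(x t / 2)) t := fun t => (RDR_der (γ v)⁻¹ γ x b c hCN.toCv t 1).2
  have h1 : (γ v)⁻¹ * γ v = 1 := inv_mul_cancel _
  have hp0 : p v = 1 := by simp only [hp]; rw [h1]; simp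
  have hq0 : q v = 0 := by simp only [hq]; rw [h1]; simp
  have hr0 : r v = 0 := by simp only [hr]; rw [h1]; simp
  have hs0 : s v = 1 := by simp only [hs]; rw [h1]; simp
  -- the data along the curve
  set J : ℝ → ℝ := fun t => Jc D.U E (γ t) (b t) (c t) with hJ
  set W : ℝ → ℝ := fun t => Wc D.U E (γ t) (x t) (b t) (c t) with hW
  have hJ0 : ∀ t, 0 < J t := hCN.pos
  have dl : ∀ t, HasDerivAt ℓ (J t) t := hCN.dl
  have hcl : ∀ t, J t ≤ 3 * C * W t := fun t => by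
    have := hCN.cl t
    norm_num at this
    linarith
  have hcu : ∀ t, W t ≤ 3 * C * J t := fun t => by
    have := hCN.cu t
    norm_num at this
    linarith
  have hcs : ∀ t, |Sc D.U E (γ t) (x t)| ≤ 18 * C ^ 3 * J t := fun t => by
    have := hCN.cs t
    norm_num at this
    linarith
  have hro := fun t => hF.ro E (γ t) hE
  have hka := fun t => hF.ka E (γ t) hE
  have hsz : ∀ t, |x t| ≤ 18 * C ^ 4 * J t ∧ |b t + c t| ≤ C * J t ∧ |b t| ≤ 12 * C ^ 4 * J t ∧ |c t| ≤ 12 * C ^ 4 * J t := fun t =>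
    LDR_size C (J t) (W t) (Sc D.U E (γ t) (x t)) (x t) (b t) (c t) (rho D.U E (γ t)) (n1 D.U (γ t)) (kap D.U E (γ t)) hC1 (hJ0 t) rfl rfl rfl
      (hro t).1 (hro t).2.1 (hro t).2.2.1 (hka t).2.1 (hka t).1 (hcl t) (hcu t) (hcs t)
  have hmono : Monotone ℓ := monotone_of_deriv_nonneg (fun t => (dl t).differentiableAt) (fun t => by rw [(dl t).deriv]; exact (hJ0 t).le)
  have hL0 : 0 ≤ ℓ v' - ℓ v := by
    have := hmono hv
    linarith
  have hCL : ∀ i : ℕ, i ≤ 20 → C ^ i * (ℓ v' - ℓ v) ≤ 1 / 10 ^ 20 := by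
    intro i hi
    have h2 : C ^ i * (ℓ v' - ℓ v) ≤ C ^ 20 * (1 / (10 * C) ^ 20) :=
      mul_le_mul (pow_le_pow_right₀ hC1 hi) hL hL0 (by positivity)
    refine h2.trans (le_of_eq ?_)
    rw [mul_pow]
    field_simp
  -- the maximum of the norm
  have hvI : v ∈ Icc v v' := ⟨le_rfl, hv⟩
  have hv'I : v' ∈ Icc v v' := ⟨hv, le_rfl⟩
  have hcont : Continuous (fun t => max (max |p t - 1| |q t|) (max |r t| |s t - 1|)) := by
    have c1 : Continuous p := continuous_iff_continuousAt.2 fun t => (dp t).continuousAt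
    have c2 : Continuous q := continuous_iff_continuousAt.2 fun t => (dq t).continuousAt
    have c3 : Continuous r := continuous_iff_continuousAt.2 fun t => (dr' t).continuousAt
    have c4 : Continuous s := continuous_iff_continuousAt.2 fun t => (ds t).continuousAt
    fun_prop
  obtain ⟨t0, ht0, hmax⟩ := isCompact_Icc.exists_isMaxOn ⟨v, hvI⟩ hcont.continuousOn
  set M := max (max |p t0 - 1| |q t0|) (max |r t0| |s t0 - 1|) with hM
  have hnm : ∀ t ∈ Icc v v', nm ((γ v)⁻¹ * γ t) ≤ M := fun t ht => hmax ht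
  have hM' : ∀ t ∈ Icc v v', |p t - 1| ≤ M ∧ |q t| ≤ M ∧ |r t| ≤ M ∧ |s t - 1| ≤ M := by
    intro t ht
    have h1 : max (max |p t - 1| |q t|) (max |r t| |s t - 1|) ≤ M := hmax ht
    have h2 := (max_le_iff.1 h1).1
    have h3 := (max_le_iff.1 h1).2
    exact ⟨(max_le_iff.1 h2).1, (max_le_iff.1 h2).2, (max_le_iff.1 h3).1, (max_le_iff.1 h3).2⟩
  have hM0 : 0 ≤ M := (abs_nonneg _).trans (hM' v hvI).1
  have hp' : ∀ t ∈ Icc v v', |p t| ≤ 1 + M := by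
    intro t ht
    have h1 := abs_le.1 (hM' t ht).1
    rw [abs_le]
    constructor <;> linarith [h1.1, h1.2]
  have hs' : ∀ t ∈ Icc v v', |s t| ≤ 1 + M := by
    intro t ht
    have h1 := abs_le.1 (hM' t ht).2.2.2
    rw [abs_le]
    constructor <;> linarith [h1.1, h1.2]
  have hx2 : ∀ t, |x t / 2| ≤ 12 * C ^ 4 * J t := by
    intro t
    rw [abs_div, abs_two]
    have h2 := (hsz t).1
    have h3 : 0 ≤ C ^ 4 * J t := mul_nonneg (by positivity) (hJ0 t).le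
    linarith
  have hnx2 : ∀ t, |-(x t / 2)| ≤ 12 * C ^ 4 * J t := by
    intro t
    rw [abs_neg]
    exact hx2 t
  have hgen : ∀ (u w A B t : ℝ), |u| ≤ 1 + M → |w| ≤ 1 + M → |A| ≤ 12 * C ^ 4 * J t → |B| ≤ 12 * C ^ 4 * J t →
      |u * A + w * B| ≤ 24 * C ^ 4 * (1 + M) * J t := by
    intro u w A B t hu hw hA hB
    have g1 := LDR_am hu hA
    have g2 := LDR_am hw hB
    obtain ⟨a1, a2⟩ := abs_le.1 g1
    obtain ⟨a3, a4⟩ := abs_le.1 g2
    rw [abs_le]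
    constructor <;> linarith
  have hq' : ∀ t ∈ Icc v v', |q t| ≤ 1 + M := fun t ht => ((hM' t ht).2.1).trans (by linarith)
  have hr' : ∀ t ∈ Icc v v', |r t| ≤ 1 + M := fun t ht => ((hM' t ht).2.2.1).trans (by linarith)
  have e1 := RDR_mv p _ J ℓ dp dl v v' (24 * C ^ 4 * (1 + M)) (fun t ht => hgen _ _ _ _ t (hp' t ht) (hq' t ht) (hx2 t) (hsz t).2.2.2) t0 ht0
  have e2 := RDR_mv q _ J ℓ dq dl v v' (24 * C ^ 4 * (1 + M)) (fun t ht => hgen _ _ _ _ t (hp' t ht) (hq' t ht) (hsz t).2.2.1 (hnx2 t)) t0 ht0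
  have e3 := RDR_mv r _ J ℓ dr' dl v v' (24 * C ^ 4 * (1 + M)) (fun t ht => hgen _ _ _ _ t (hr' t ht) (hs' t ht) (hx2 t) (hsz t).2.2.2) t0 ht0
  have e4 := RDR_mv s _ J ℓ ds dl v v' (24 * C ^ 4 * (1 + M)) (fun t ht => hgen _ _ _ _ t (hr' t ht) (hs' t ht) (hsz t).2.2.1 (hnx2 t)) t0 ht0
  rw [hp0] at e1
  rw [hq0, sub_zero] at e2
  rw [hr0, sub_zero] at e3
  rw [hs0] at e4
  have hl0 : ℓ t0 - ℓ v ≤ ℓ v' - ℓ v := by
    have := hmono ht0.2
    linarith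
  have hMle : M ≤ 24 * C ^ 4 * (1 + M) * (ℓ t0 - ℓ v) := max_le (max_le e1 e2) (max_le e3 e4)
  have hM1 : M ≤ 25 * C ^ 4 * (ℓ v' - ℓ v) := by
    have h2 : 24 * C ^ 4 * (1 + M) * (ℓ t0 - ℓ v) ≤ 24 * C ^ 4 * (1 + M) * (ℓ v' - ℓ v) := mul_le_mul_of_nonneg_left hl0 (by positivity)
    have h3 := mul_le_mul_of_nonneg_right (hCL 4 (by norm_num)) hM0
    have h4 : 0 ≤ C ^ 4 * (ℓ v' - ℓ v) := by positivity
    nlinarith
  have hM10 : M ≤ 1 / 10 := by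
    have h3 := hCL 4 (by norm_num)
    linarith
  have hMN : 20000 * (C ^ 9 * M) ≤ 1 := by
    have h3 := hCL 13 (by norm_num)
    have h4 : C ^ 9 * M ≤ C ^ 9 * (25 * C ^ 4 * (ℓ v' - ℓ v)) := mul_le_mul_of_nonneg_left hM1 (by positivity)
    linarith
  -- comparison
  have hli : ∀ t ∈ Icc v v', _ := fun t ht => hF.li E E (γ v) ((γ v)⁻¹ * γ t) hE hE ((hnm t ht).trans hM10)
  have hCM : ∀ t ∈ Icc v v', C * (nm ((γ v)⁻¹ * γ t) + |E - E|) ≤ C * M := by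
    intro t ht
    rw [sub_self, abs_zero, add_zero]
    exact mul_le_mul_of_nonneg_left (hnm t ht) hC0.le
  have hCM' : ∀ t ∈ Icc v v', C * nm ((γ v)⁻¹ * γ t) ≤ C * M := by
    intro t ht
    exact mul_le_mul_of_nonneg_left (hnm t ht) hC0.le
  have hpt : ∀ t ∈ Icc v v', _ := fun t ht =>
    LDR_pt C M (J t) (W t) (x t) (b t) (c t) (rho D.U E (γ t)) (n1 D.U (γ t)) (kap D.U E (γ t)) (rho D.U E (γ v)) (n1 D.U (γ v)) (kap D.U E (γ v))
      (p t) (q t) (r t) (s t) hC1 (hJ0 t) hM0 hMN rfl rfl (hro t).1 (hro t).2.2.1 (hro v).1 (hro v).2.1 (hro v).2.2.1 (hka t).2.1 (hka t).1 (hka v).2.1 (hka v).1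
      (by
        have h2 := (hli t ht).1
        rw [mul_inv_cancel_left] at h2
        exact h2.trans (hCM t ht))
      (by
        have h2 := (hli t ht).2.1
        rw [mul_inv_cancel_left] at h2
        exact h2.trans (hCM t ht))
      (by
        have h2 := (hli t ht).2.2.1
        rw [mul_inv_cancel_left] at h2
        exact h2.trans (hCM' t ht))
      (by
        have h2 := (hli t ht).2.2.2.1
        rw [mul_inv_cancel_left] at h2
        exact h2.trans (hCM t ht))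
      (hsz t).1 (hsz t).2.1 (hsz t).2.2.1 (hsz t).2.2.2 (hM' t ht).1 (hM' t ht).2.1 (hM' t ht).2.2.1 (hM' t ht).2.2.2
  set ρ0 := rho D.U E (γ v) with hρ0
  set ν0 := n1 D.U (γ v) with hν0
  set κ0 := kap D.U E (γ v) with hκ0
  -- J
  have kJ := RDR_mv (fun t => -(ρ0 * (q t + r t)) - ℓ t) (fun t => -(ρ0 * ((p t * b t + q t * -(x t / 2)) + (r t * (x t / 2) + s t * c t))) - J t) J ℓ
    (fun t => ((((dq t).add (dr' t)).const_mul ρ0).neg).sub (dl t)) dl v v' (1 / 100) (fun t ht => by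
      refine (hpt t ht).1.trans (le_of_eq ?_)
      ring) v' hv'I
  -- W
  have dw : ∀ t, HasDerivAt (fun t => (q t - r t) - ν0 / (2 * ρ0 ^ 2) * (q t + r t) - κ0 * (p t - s t) / ρ0)
      (((p t * b t + q t * -(x t / 2)) - (r t * (x t / 2) + s t * c t)) - ν0 / (2 * ρ0 ^ 2) * ((p t * b t + q t * -(x t / 2)) + (r t * (x t / 2) + s t * c t)) -
      κ0 * ((p t * (x t / 2) + q t * c t) - (r t * b t + s t * -(x t / 2))) / ρ0) t := fun t =>
    (((dq t).sub (dr' t)).sub (((dq t).add (dr' t)).const_mul _)).sub ((((dp t).sub (ds t)).const_mul κ0).div_const ρ0)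
  have hdiv : ∀ t, J t / (100 * C) = 1 / (100 * C) * J t := fun t => by ring
  have hW3 : ∀ t, 1 / (3 * C) * J t ≤ W t := by
    intro t
    have h2 := hcl t
    have h3 : 0 < 3 * C := by positivity
    rw [one_div, inv_mul_le_iff₀ h3]
    exact h2
  have hc3 : 1 / (3 * C) = 100 / 3 * (1 / (100 * C)) := by field_simp
  have kW1 := LDR_lo _ _ J ℓ dw dl v v' hv (30 * (1 / (100 * C))) (fun t ht => by
    have h2 := (abs_le.1 (hpt t ht).2.1).1
    have h3 := hW3 t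
    rw [hdiv] at h2
    rw [hc3] at h3
    have h4 : 0 ≤ 1 / (100 * C) * J t := mul_nonneg (by positivity) (hJ0 t).le
    linarith)
  have hCi : 1 / (100 * C) ≤ 1 / 100 * C := by
    rw [div_le_iff₀ (by positivity)]
    nlinarith
  have kW2 := LDR_hi _ _ J ℓ dw dl v v' hv (301 / 100 * C) (fun t ht => by
    have h2 := (abs_le.1 (hpt t ht).2.1).2
    have h3 := hcu t
    rw [hdiv] at h2
    have h4 := mul_le_mul_of_nonneg_right hCi (hJ0 t).le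
    linarith)
  -- the diagonal
  have kD := RDR_mv (fun t => p t - s t) _ J ℓ (fun t => (dp t).sub (ds t)) dl v v' (19 * C ^ 4) (fun t ht => (hpt t ht).2.2) v' hv'I
  simp only [hp0, hq0, hr0, hs0, sub_self, mul_zero, zero_div, sub_zero, add_zero, neg_zero] at kJ kW1 kW2 kD
  have hJe : Jc D.U E (γ v) (((γ v)⁻¹ * γ v').1 0 1) (((γ v)⁻¹ * γ v').1 1 0) = -(ρ0 * (q v' + r v')) := rfl
  have hWe : Wc D.U E (γ v) (((γ v)⁻¹ * γ v').1 0 0 - ((γ v)⁻¹ * γ v').1 1 1) (((γ v)⁻¹ * γ v').1 0 1) (((γ v)⁻¹ * γ v').1 1 0) =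
    (q v' - r v') - ν0 / (2 * ρ0 ^ 2) * (q v' + r v') - κ0 * (p v' - s v') / ρ0 := rfl
  rw [hJe, hWe]
  set j := -(ρ0 * (q v' + r v')) with hj
  set w := (q v' - r v') - ν0 / (2 * ρ0 ^ 2) * (q v' + r v') - κ0 * (p v' - s v') / ρ0 with hw
  obtain ⟨a1, a2⟩ := abs_le.1 kJ
  have hjL : |j - (ℓ v' - ℓ v)| ≤ (ℓ v' - ℓ v) / 100 := by
    rw [abs_le]
    constructor <;> linarith
  obtain ⟨b1, b2⟩ := abs_le.1 hjL
  have hCw : 120 / 100 * (ℓ v' - ℓ v) ≤ 4 * C * w := by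
    have h2 := mul_le_mul_of_nonneg_left kW1 (show 0 ≤ 4 * C by positivity)
    have h3 : 4 * C * (30 * (1 / (100 * C)) * (ℓ v' - ℓ v)) = 120 / 100 * (ℓ v' - ℓ v) := by
      field_simp
      ring
    linarith
  refine ⟨?_, hjL, by linarith, ?_, ?_⟩
  · refine (hnm v' hv'I).trans (hM1.trans ?_)
    have : 0 ≤ C ^ 4 * (ℓ v' - ℓ v) := by positivity
    linarith
  · have h2 : 4 * C * (99 / 100 * (ℓ v' - ℓ v)) ≤ 4 * C * j := mul_le_mul_of_nonneg_left (by linarith) (by positivity)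
    have h3 : 0 ≤ C * (ℓ v' - ℓ v) := by positivity
    linarith
  · refine kD.trans ?_
    have : 0 ≤ C ^ 4 * (ℓ v' - ℓ v) := by positivity
    linarith

end Pool.Agent.VN
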