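import Pool.Agent.helper93.VN.SpecL

/-!
# Project VN (MP_07c750_an), block LD, row LI7: large deviations for the chain of big steps
-/

set_option autoImplicit false

open scoped MatrixGroups ContDiff Topology UpperHalfPlane ComplexConjugate ENNReal
open UpperHalfPlane MeasureTheory Filter Set

namespace Pool.Agent.VN

open Pool.Agent.RS Pool.Agent.VQ
open Pool.Agent.VQE (nm)

theorem LI7_adm {C C' : ℝ} {A : Prm} (h : Adm C A) (h0 : 0 ≤ C') (h1 : C' ≤ C) : Adm C' A := by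
  have he3 := h.e3
  have hz := h.z
  have hz1 := h.z1
  have hz2 := h.z2
  have hup := h.up
  have hC : 0 ≤ C := h0.trans h1
  have a0 : 0 ≤ A.z := le_trans (mul_nonneg hC he3.le) hz
  have a1 : 0 ≤ A.z1 := le_trans (mul_nonneg hC a0) hz1
  have a2 : 0 ≤ A.z2 := le_trans (mul_nonneg hC a1) hz2
  exact ⟨he3, h.m, (mul_le_mul_of_nonneg_right h1 he3.le).trans hz, (mul_le_mul_of_nonneg_right h1 a0).trans hz1,
    (mul_le_mul_of_nonneg_right h1 a1).trans hz2, (mul_le_mul_of_nonneg_right h1 (mul_nonneg (Nat.cast_nonneg _) a2)).trans hup, h.tu⟩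

theorem LI7_z2 {A : Prm} (hA : Adm 10 A) : 0 ≤ A.z2 ∧ A.z2 ≤ 1 / 10 := by
  have he3 := hA.e3
  have hm : (1 : ℝ) ≤ A.m := by exact_mod_cast hA.m
  have hz := hA.z
  have hz1 := hA.z1
  have hz2 := hA.z2
  have hup := hA.up
  have a0 : 0 ≤ A.z := by linarith
  have a1 : 0 ≤ A.z1 := by linarith
  have a2 : 0 ≤ A.z2 := by linarith
  have h1 : 1 * A.z2 ≤ A.m * A.z2 := mul_le_mul_of_nonneg_right hm a2
  exact ⟨a2, by linarith⟩

theorem LI7_kM {η r : ℝ} (hη : |η| ≤ r) (hr : r ≤ 1) : nm (kM η) ≤ r := by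
  have hns : ∀ t : ℝ, 0 ≤ t → t ≤ 1 → 0 ≤ Real.sin t := fun t h0 h1 =>
    Real.sin_nonneg_of_nonneg_of_le_pi h0 (h1.trans (by linarith [Real.pi_gt_three]))
  have hη1 : |η| ≤ 1 := hη.trans hr
  have h1 : |Real.sin η| ≤ |η| := by
    rw [abs_le]
    rcases le_total 0 η with h | h
    · rw [abs_of_nonneg h] at hη1 ⊢
      have h2 := Real.sin_le h
      have h3 := hns η h hη1
      constructor <;> linarith
    · rw [abs_of_nonpos h] at hη1 ⊢
      have h0 : 0 ≤ -η := by linarith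
      have h2 := Real.sin_le h0
      have h3 := hns (-η) h0 hη1
      rw [Real.sin_neg] at h2 h3
      constructor <;> linarith
  have h2 : |Real.cos η - 1| ≤ |η| := by
    have h3 := Real.one_sub_sq_div_two_le_cos (x := η)
    have h4 := Real.cos_le_one η
    have h5 : η ^ 2 ≤ |η| := by
      rw [← sq_abs, pow_two]
      have : |η| ≤ 1 := hη.trans hr
      nlinarith [abs_nonneg η]
    rw [abs_le]
    have := abs_nonneg η
    constructor <;> nlinarith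
  unfold Pool.Agent.VQE.nm kM
  simp only [Matrix.of_apply, Matrix.cons_val', Matrix.cons_val_zero, Matrix.cons_val_one, Matrix.cons_val_fin_one]
  refine max_le (max_le (h2.trans hη) (h1.trans hη)) (max_le ?_ (h2.trans hη))
  rw [abs_neg]
  exact h1.trans hη

/-- large `R` -/
theorem LI7_R0 (A : Prm) (hA : Adm 10 A) (k C0 F N0 th e2 : ℝ) (hk : 0 < k) (hF : 0 < F) (hth : 0 < th) (he2 : 0 < e2)
    (hme : (A.m : ℝ) * A.e3 = e2) : ∃ R0 : ℝ, 1 ≤ R0 ∧ ∀ R : ℝ, R0 ≤ R →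
    1 ≤ Real.log R ∧ N0 * r2 A R ≤ 1 / 4 * R ^ (-(1 / 4) : ℝ) ∧ 0 < r2 A R ∧ r2 A R ≤ 1 / F ^ 3 ∧ r2 A R ≤ 1 ∧ 6 * C0 ^ 2 + 2 ≤ A.tu R ∧
      2 * R ^ (-(1 / 4) : ℝ) ≤ k ∧ Real.exp 1 * C0 ≤ 2 * R ^ (1 / 6 : ℝ) ∧ (64 * Real.pi) ^ N0 ≤ R ^ (th / 2) := by
  obtain ⟨a2, a3⟩ := LI7_z2 hA
  have t0 : Tendsto Real.log atTop atTop := Real.tendsto_log_atTop
  have t1 : Tendsto (fun R : ℝ => e2 * Real.log R) atTop atTop := Real.tendsto_log_atTop.const_mul_atTop he2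
  have t2 : Tendsto (fun R : ℝ => R ^ (-(1 / 4) : ℝ)) atTop (𝓝 0) := tendsto_rpow_neg_atTop (by norm_num)
  have t3 : Tendsto (fun R : ℝ => R ^ (-(3 / 10) : ℝ)) atTop (𝓝 0) := tendsto_rpow_neg_atTop (by norm_num)
  have t4 : Tendsto (fun R : ℝ => N0 * R ^ (-(1 / 20) : ℝ)) atTop (𝓝 (N0 * 0)) := (tendsto_rpow_neg_atTop (by norm_num)).const_mul N0
  rw [mul_zero] at t4
  have t5 : Tendsto (fun R : ℝ => 2 * R ^ (1 / 6 : ℝ)) atTop atTop := (tendsto_rpow_atTop (by norm_num)).const_mul_atTop (by norm_num)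
  have t6 : Tendsto (fun R : ℝ => R ^ (th / 2)) atTop atTop := tendsto_rpow_atTop (by linarith)
  have e0 := t0.eventually_ge_atTop 1
  have e1 := t1.eventually_ge_atTop (6 * C0 ^ 2 + 2)
  have e2' := t2.eventually_le_const (show (0 : ℝ) < k / 2 by linarith)
  have e3 := t3.eventually_le_const (show (0 : ℝ) < min (1 / F ^ 3) 1 by positivity)
  have e4 := t4.eventually_le_const (show (0 : ℝ) < 1 / 4 by norm_num)
  have e5 := t5.eventually_ge_atTop (Real.exp 1 * C0)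
  have e6 := t6.eventually_ge_atTop ((64 * Real.pi) ^ N0)
  obtain ⟨R0, hR0⟩ := eventually_atTop.1 (e0.and (e1.and (e2'.and (e3.and (e4.and (e5.and e6))))))
  refine ⟨max 1 R0, le_max_left _ _, fun R hR => ?_⟩
  obtain ⟨h0, h1, h2, h3, h4, h5, h6⟩ := hR0 R ((le_max_right _ _).trans hR)
  have hR1 : (1 : ℝ) ≤ R := (le_max_left _ _).trans hR
  have hRp : (0 : ℝ) < R := by linarith
  have hr : r2 A R ≤ R ^ (-(3 / 10) : ℝ) := by
    unfold r2
    exact Real.rpow_le_rpow_of_exponent_le hR1 (by linarith)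
  have hr0 : 0 < r2 A R := by
    unfold r2
    positivity
  refine ⟨h0, ?_, hr0, hr.trans (h3.trans (min_le_left _ _)), hr.trans (h3.trans (min_le_right _ _)), ?_, by linarith, h5, h6⟩
  · have h7 : R ^ (-(3 / 10) : ℝ) = R ^ (-(1 / 20) : ℝ) * R ^ (-(1 / 4) : ℝ) := by
      rw [← Real.rpow_add hRp]
      congr 1
      norm_num
    have h8 : 0 ≤ R ^ (-(1 / 4) : ℝ) := by positivity
    rcases le_total 0 N0 with hN | hN
    · calc N0 * r2 A R ≤ N0 * R ^ (-(3 / 10) : ℝ) := mul_le_mul_of_nonneg_left hr hN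
        _ = (N0 * R ^ (-(1 / 20) : ℝ)) * R ^ (-(1 / 4) : ℝ) := by rw [h7]; ring
        _ ≤ 1 / 4 * R ^ (-(1 / 4) : ℝ) := mul_le_mul_of_nonneg_right h4 h8
    · have h9 : N0 * r2 A R ≤ 0 := mul_nonpos_of_nonpos_of_nonneg hN hr0.le
      linarith
  · have h7 : A.tu R = e2 * Real.log R := by
      rw [← hme]
      unfold Prm.tu Prm.sg
      ring
    rw [h7]
    exact h1

/-- the first step: the curve of the rotations -/
theorem LI7_curve (hLST : LST_stmt) (hLGF : LGF_stmt) (hLJT : LJT_stmt) {k C0 F : ℝ} {D : Dyn} (hF : FK k C0 D) (hFM : FM C0 ≤ F)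
    {E : ℝ} {g : SL(2, ℝ)} (hE : |E| ≤ k) {τ s η ε : ℝ} (hτ : 6 * C0 ^ 2 + 2 ≤ τ) (hs : |s| ≤ 1) (hη : nm (kM η) ≤ 1 / F ^ 3)
    (hE' : |E + ε| ≤ k) (hε : |ε| ≤ 1 / F ^ 3) :
    ∃ x b c ℓ : ℝ → ℝ, RN C0 F 1 D (E + ε) (fun θ => D.fl E (τ + s) (g * kM θ) * kM η) x b c ℓ ∧
      RN C0 F 1 D (E + ε) (fun θ => ngM * (D.fl E (τ + s) (g * kM θ) * kM η)) x b c ℓ ∧
      ∀ θ θ' : ℝ, θ ≤ θ' → 1 / C0 * Real.exp ((τ - 2) / (3 * C0 ^ 2)) * (θ' - θ) ≤ ℓ θ' - ℓ θ := by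
  have hC0 : 0 < C0 := by have := hF.c1; linarith
  obtain ⟨x0, b0, c0, l0, g0, hl0⟩ := hLST k C0 F D hF hFM E g hE
  obtain ⟨j1, -, j3, -⟩ := hLJT k C0 F D hF hFM E hE
  have g1 := j3 (1 / 2) 2 _ x0 b0 c0 l0 (by norm_num) (by norm_num) g0
  obtain ⟨X, Y, Z, L, -, -, -, hL0, hLg, -, hG⟩ := hLGF k C0 F D hF hFM E _ x0 b0 c0 l0 hE g1
  obtain ⟨hs1, hs2⟩ := abs_le.1 hs
  have ht : 6 * C0 ^ 2 ≤ τ + s - 1 := by linarith
  have ht0 : 0 ≤ τ + s - 1 := le_trans (by positivity) ht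
  have g2 := hG (τ + s - 1) ht
  obtain ⟨x3, b3, c3, l3, g3, hl3⟩ := j1 (1 / 2) (E + ε) _ _ _ _ _ (kM η) (Or.inl rfl) hE' (by rw [add_sub_cancel_left]; exact hε) g2 hη
  have e1 : (2 : ℝ) * (1 / 2) = 1 := by norm_num
  rw [e1] at g3
  have e2 : (fun θ => D.fl E (τ + s - 1) (D.fl E 1 (g * kM θ)) * kM η) = fun θ => D.fl E (τ + s) (g * kM θ) * kM η := by
    funext θ
    rw [← hF.add E (τ + s - 1) 1 (g * kM θ) hE, sub_add_cancel]
  have g4 : RN C0 F 1 D (E + ε) (fun θ => D.fl E (τ + s) (g * kM θ) * kM η) x3 b3 c3 l3 := by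
    rw [← e2]
    exact g3
  refine ⟨x3, b3, c3, l3, g4, (hLJT k C0 F D hF hFM (E + ε) hE').2.1 1 _ x3 b3 c3 l3 g4, fun θ θ' hθ => ?_⟩
  have a1 := (hl0 θ θ' hθ).1
  have a2 := (hLg 0 (τ + s - 1) θ θ' le_rfl ht0 hθ).1
  have a3 := (hl3 θ θ' hθ).1
  rw [hL0, sub_zero] at a2
  have h3 : 0 ≤ θ' - θ := by linarith
  have h4 : Real.exp ((τ - 2) / (3 * C0 ^ 2)) ≤ Real.exp ((τ + s - 1) / (3 * C0 ^ 2)) := by
    rw [Real.exp_le_exp]
    exact div_le_div_of_nonneg_right (by linarith) (by positivity)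
  calc 1 / C0 * Real.exp ((τ - 2) / (3 * C0 ^ 2)) * (θ' - θ)
      ≤ 1 / C0 * Real.exp ((τ + s - 1) / (3 * C0 ^ 2)) * (θ' - θ) :=
        mul_le_mul_of_nonneg_right (mul_le_mul_of_nonneg_left h4 (by positivity)) h3
    _ = 1 / 2 * (Real.exp ((τ + s - 1) / (3 * C0 ^ 2)) * (2 / C0 * (θ' - θ))) := by ring
    _ ≤ 1 / 2 * (Real.exp ((τ + s - 1) / (3 * C0 ^ 2)) * (l0 θ' - l0 θ)) :=
        mul_le_mul_of_nonneg_left (mul_le_mul_of_nonneg_left a1 (Real.exp_pos _).le) (by norm_num)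
    _ ≤ 1 / 2 * (L (τ + s - 1) θ' - L (τ + s - 1) θ) := mul_le_mul_of_nonneg_left a2 (by norm_num)
    _ ≤ l3 θ' - l3 θ := a3

theorem LI7_vol {r : ℝ} (hr : 0 ≤ r) : volume (Icc (-r) r ×ˢ Icc (-r) r ×ˢ Icc (-r) r : Set (ℝ × ℝ × ℝ)) = ENNReal.ofReal (8 * r ^ 3) := by
  rw [Measure.volume_eq_prod, Measure.prod_prod, Measure.volume_eq_prod,
    Measure.prod_prod, Real.volume_Icc, ← ENNReal.ofReal_mul (by linarith), ← ENNReal.ofReal_mul (by linarith)]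
  congr 1
  ring

theorem LI7_ton (D : Dyn) (τ r : ℝ) (hr : 0 ≤ r) (p : SL(2, ℝ) × ℝ)
    (hPhi : Measurable fun q : (SL(2, ℝ) × ℝ) × (ℝ × ℝ × ℝ × ℝ) => PhiN D τ q.1 q.2)
    (W : SL(2, ℝ) × ℝ → ℝ≥0∞) (hWm : Measurable W) (K : ℝ≥0∞)
    (hin : ∀ s η ε : ℝ, |s| ≤ r → |η| ≤ r → |ε| ≤ r →
      ∫⁻ θ in Icc (-r) r, W (D.fl p.2 (τ + s) (p.1 * kM θ) * kM η, p.2 + ε) ≤ K ∧
      ∫⁻ θ in Icc (-r) r, W (ngM * (D.fl p.2 (τ + s) (p.1 * kM θ) * kM η), p.2 + ε) ≤ K) :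
    (∫⁻ o in bx r, (W (PhiN D τ p o) + W (ngM * (PhiN D τ p o).1, (PhiN D τ p o).2))) ≤ 2 * K * ENNReal.ofReal (8 * r ^ 3) := by
  have hng : Measurable (fun q : SL(2, ℝ) × ℝ => (ngM * q.1, q.2)) :=
    ((continuous_const.mul continuous_id).measurable.comp measurable_fst).prodMk measurable_snd
  have hP : Measurable (fun o : ℝ × ℝ × ℝ × ℝ => PhiN D τ p o) := hPhi.comp (measurable_const.prodMk measurable_id)
  have hf : Measurable (fun o : ℝ × ℝ × ℝ × ℝ => W (PhiN D τ p o) + W (ngM * (PhiN D τ p o).1, (PhiN D τ p o).2)) :=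
    (hWm.comp hP).add (hWm.comp (hng.comp hP))
  have hbm : MeasurableSet (Icc (-r) r ×ˢ Icc (-r) r ×ˢ Icc (-r) r : Set (ℝ × ℝ × ℝ)) :=
    measurableSet_Icc.prod (measurableSet_Icc.prod measurableSet_Icc)
  unfold bx
  rw [Measure.volume_eq_prod, ← Measure.prod_restrict, lintegral_prod_symm' _ hf]
  have hinner : ∀ o ∈ (Icc (-r) r ×ˢ Icc (-r) r ×ˢ Icc (-r) r : Set (ℝ × ℝ × ℝ)),
      ∫⁻ θ in Icc (-r) r, (W (PhiN D τ p (θ, o)) + W (ngM * (PhiN D τ p (θ, o)).1, (PhiN D τ p (θ, o)).2)) ≤ 2 * K := by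
    intro o ho
    have hs1 : |o.1| ≤ r := abs_le.2 ho.1
    have hη1 : |o.2.1| ≤ r := abs_le.2 ho.2.1
    have hε : |o.2.2| ≤ r := abs_le.2 ho.2.2
    obtain ⟨k1, k2⟩ := hin o.1 o.2.1 o.2.2 hs1 hη1 hε
    have hm1 : Measurable (fun θ : ℝ => W (PhiN D τ p (θ, o))) :=
      hWm.comp (hP.comp (measurable_id.prodMk measurable_const))
    rw [lintegral_add_left hm1, two_mul]
    exact add_le_add k1 k2
  calc ∫⁻ o in (Icc (-r) r ×ˢ Icc (-r) r ×ˢ Icc (-r) r : Set (ℝ × ℝ × ℝ)),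
        ∫⁻ θ in Icc (-r) r, (W (PhiN D τ p (θ, o)) + W (ngM * (PhiN D τ p (θ, o)).1, (PhiN D τ p (θ, o)).2))
      ≤ ∫⁻ _ in (Icc (-r) r ×ˢ Icc (-r) r ×ˢ Icc (-r) r : Set (ℝ × ℝ × ℝ)), 2 * K := setLIntegral_mono' hbm hinner
    _ = 2 * K * ENNReal.ofReal (8 * r ^ 3) := by
        rw [setLIntegral_const, LI7_vol hr]

/-- the numbers at the end -/
theorem LI7_num (R th C' z2 N0 : ℝ) (b : ℕ) (hR : 1 ≤ R) (hC' : 0 ≤ C') (hz2 : 0 ≤ z2) (hbN : (b : ℝ) ≤ N0)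
    (hzz : (C' + 8) * z2 * N0 ≤ th / 2) (hpi : (64 * Real.pi) ^ N0 ≤ R ^ (th / 2)) :
    (R ^ (4 + C' * z2)) ^ b * ((32 * (R ^ (-(1 / 2) + 2 * z2)) ^ 4) ^ b * R ^ (-(2 * th))) ≤ R ^ (-th) * (R ^ 2 / (2 * Real.pi)) ^ b := by
  have hRp : 0 < R := by linarith
  have hπ : 3 < Real.pi := Real.pi_gt_three
  have h1 : (R ^ (-(1 / 2) + 2 * z2)) ^ 4 = R ^ (-2 + 8 * z2) := by
    rw [← Real.rpow_natCast, ← Real.rpow_mul hRp.le]
    congr 1
    push_cast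
    ring
  have h2 : R ^ (4 + C' * z2) * (32 * R ^ (-2 + 8 * z2)) = (R ^ 2 / (2 * Real.pi)) * ((64 * Real.pi) * R ^ ((C' + 8) * z2)) := by
    have h3 : R ^ (4 + C' * z2) * R ^ (-2 + 8 * z2) = R ^ (2 : ℝ) * R ^ ((C' + 8) * z2) := by
      rw [← Real.rpow_add hRp, ← Real.rpow_add hRp]
      congr 1
      ring
    have h4 : R ^ (2 : ℝ) = R ^ 2 := Real.rpow_two R
    rw [h4] at h3
    calc R ^ (4 + C' * z2) * (32 * R ^ (-2 + 8 * z2)) = 32 * (R ^ (4 + C' * z2) * R ^ (-2 + 8 * z2)) := by ring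
      _ = 32 * (R ^ 2 * R ^ ((C' + 8) * z2)) := by rw [h3]
      _ = (R ^ 2 / (2 * Real.pi)) * ((64 * Real.pi) * R ^ ((C' + 8) * z2)) := by field_simp; ring
  have h5 : (64 * Real.pi) ^ b ≤ R ^ (th / 2) := by
    rw [← Real.rpow_natCast]
    exact (Real.rpow_le_rpow_of_exponent_le (by linarith) hbN).trans hpi
  have h6 : (R ^ ((C' + 8) * z2)) ^ b ≤ R ^ (th / 2) := by
    rw [← Real.rpow_natCast, ← Real.rpow_mul hRp.le]
    refine Real.rpow_le_rpow_of_exponent_le hR ?_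
    have h7 : (C' + 8) * z2 * (b : ℝ) ≤ (C' + 8) * z2 * N0 := mul_le_mul_of_nonneg_left hbN (by positivity)
    linarith
  have h8 : R ^ (th / 2) * R ^ (th / 2) * R ^ (-(2 * th)) = R ^ (-th) := by
    rw [← Real.rpow_add hRp, ← Real.rpow_add hRp]
    congr 1
    ring
  calc (R ^ (4 + C' * z2)) ^ b * ((32 * (R ^ (-(1 / 2) + 2 * z2)) ^ 4) ^ b * R ^ (-(2 * th)))
      = (R ^ (4 + C' * z2) * (32 * R ^ (-2 + 8 * z2))) ^ b * R ^ (-(2 * th)) := by rw [h1, mul_pow (R ^ (4 + C' * z2))]; ring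
    _ = (R ^ 2 / (2 * Real.pi)) ^ b * ((64 * Real.pi) ^ b * (R ^ ((C' + 8) * z2)) ^ b * R ^ (-(2 * th))) := by
        rw [h2, mul_pow, mul_pow]
        ring
    _ ≤ (R ^ 2 / (2 * Real.pi)) ^ b * (R ^ (th / 2) * R ^ (th / 2) * R ^ (-(2 * th))) := by
        refine mul_le_mul_of_nonneg_left (mul_le_mul_of_nonneg_right (mul_le_mul h5 h6 (by positivity) (by positivity)) (by positivity)) (by positivity)
    _ = R ^ (-th) * (R ^ 2 / (2 * Real.pi)) ^ b := by rw [h8, mul_comm]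

theorem LI7_proof (hLFK : LFK_stmt) (hLMS : LMS_stmt) (hLLL : LLL_stmt) (hLIA : LIA_stmt) (hLIB : LIB_stmt) (hLST : LST_stmt)
    (hLJT : LJT_stmt) (hLGF : LGF_stmt) : LI7_stmt := by
  intro Γ Fd ch k B hΓ hFd hch hk
  obtain ⟨C0, hC01, hFK⟩ := hLFK Γ k B hΓ hk
  have hC00 : 0 < C0 := by linarith
  obtain ⟨C', hC'1, hA'⟩ := hLIA Γ ch k B hΓ hch hk
  have hF1 : 1 ≤ FM C0 := by
    unfold FM
    have h1 : 1 ≤ Real.exp (40 * C0) := Real.one_le_exp (by linarith)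
    have h2 : (1 : ℝ) ≤ (10 * C0) ^ 40 := one_le_pow₀ (by linarith)
    nlinarith
  have hF0 : 0 < FM C0 := by linarith
  refine ⟨max 10 C', 4 * C0 ^ 2, le_trans (by norm_num) (le_max_left _ _), by positivity, fun h e hTF he => ?_⟩
  obtain ⟨v0, l0, hv0, hl0, hl0F, hL⟩ := hLLL Γ Fd k C0 (FM C0) hΓ hFd hk hC01 le_rfl h e hTF he
  have hF5 : 1 ≤ (FM C0) ^ 5 := one_le_pow₀ hF1
  have hl1 : l0 ≤ 1 := hl0F.trans (by rw [div_le_one (by positivity)]; exact hF5)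
  refine ⟨v0, FM C0 / l0, hv0, by rw [le_div_iff₀ hl0]; linarith, fun T0 E0 e2 hT0 hE0 he2 he2C he2b => ?_⟩
  obtain ⟨th, R1, hth, hR11, hLL⟩ := hL T0 E0 e2 hT0 hE0 he2
  set cb : ℝ := 4 * C0 ^ 2 with hcb
  have hcb0 : 0 < cb := by positivity
  refine ⟨th, th * e2 / (4 * cb * (C' + 8)), hth, by positivity, fun A hA hme hz2 => ?_⟩
  have hA10 : Adm 10 A := LI7_adm hA (by norm_num) (le_max_left _ _)
  have hAC' : Adm C' A := LI7_adm hA (by linarith) (le_max_right _ _)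
  obtain ⟨R2, hR21, hIA⟩ := hA' A hAC'
  obtain ⟨R3, hR31, hIB⟩ := hLIB k C0 (FM C0) hk hC01 le_rfl A hA10
  set N0 : ℝ := 2 * cb / e2 with hN0
  have hN00 : 0 ≤ N0 := by positivity
  obtain ⟨R4, hR41, hnum⟩ := LI7_R0 A hA10 k C0 (FM C0) N0 th e2 hk hF0 hth he2 hme
  obtain ⟨hz20, hz21⟩ := LI7_z2 hA10
  refine ⟨max (max R1 R2) (max R3 R4), le_trans hR11 ((le_max_left _ _).trans (le_max_left _ _)), ?_⟩
  intro R D b hR hD hU hb1 hb2 p hp
  have hRR1 : R1 ≤ R := ((le_max_left _ _).trans (le_max_left _ _)).trans hR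
  have hRR2 : R2 ≤ R := ((le_max_right _ _).trans (le_max_left _ _)).trans hR
  have hRR3 : R3 ≤ R := ((le_max_left _ _).trans (le_max_right _ _)).trans hR
  have hRR4 : R4 ≤ R := ((le_max_right _ _).trans (le_max_right _ _)).trans hR
  have hR1 : 1 ≤ R := hR11.trans hRR1
  have hRp : 0 < R := by linarith
  obtain ⟨hlog, hNr, hr0, hrF, hr1, hτ, hk4, h16, hpi⟩ := hnum R hRR4
  have htu : A.tu R = e2 * Real.log R := by
    rw [← hme]
    unfold Prm.tu Prm.sg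
    ring
  have hlog0 : 0 < Real.log R := by linarith
  have hF := hFK D hD
  -- the number of the big steps
  have hb2' : (b : ℝ) ≤ N0 := by
    rw [hN0, le_div_iff₀ he2]
    rw [htu] at hb2
    have h1 : (b : ℝ) * e2 * Real.log R ≤ 2 * cb * Real.log R := by linarith
    exact le_of_mul_le_mul_right h1 hlog0
  have hb0 : b ≠ 0 := by
    rintro rfl
    rw [Nat.cast_zero, zero_mul] at hb1
    have : 0 < cb * Real.log R := mul_pos hcb0 hlog0
    linarith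
  obtain ⟨n, rfl⟩ := Nat.exists_eq_succ_of_ne_zero hb0
  have hR4p : 0 < R ^ (-(1 / 4) : ℝ) := by positivity
  have hpE : |p.2| ≤ 5 / 4 * R ^ (-(1 / 4) : ℝ) := abs_le.2 hp
  have hbr : ((n + 1 : ℕ) : ℝ) * r2 A R ≤ 1 / 4 * R ^ (-(1 / 4) : ℝ) := (mul_le_mul_of_nonneg_right hb2' hr0.le).trans hNr
  obtain ⟨hPhi, hPV, hBad⟩ := hLMS Γ k B D hD
  set V : SL(2, ℝ) × ℝ → ENNReal := (BadP D Fd h e (A.tu R)).indicator (fun _ => 1) with hV
  have hVm : Measurable V := measurable_const.indicator (hBad Fd h e (A.tu R) hTF)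
  have h1 := hIA R D hRR2 hD V hVm (n + 1) p (by linarith)
  refine h1.trans ?_
  rw [Function.iterate_succ_apply']
  have hmeas : ∀ j : ℕ, Measurable ((PVN D A R)^[j] V) := by
    intro j
    induction j with
    | zero => exact hVm
    | succ j ih =>
      rw [Function.iterate_succ_apply']
      exact hPV A R _ ih
  have hEk : |p.2| ≤ k := by linarith
  have hnr : (n : ℝ) * r2 A R ≤ ((n + 1 : ℕ) : ℝ) * r2 A R - r2 A R := by
    push_cast
    linarith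
  have key := LI7_ton D (A.tu R) (r2 A R) hr0.le p (hPhi (A.tu R)) ((PVN D A R)^[n] V) (hmeas n)
    (ENNReal.ofReal ((32 * r2 A R ^ 4) ^ n * R ^ (-(2 * th)) * (r2 A R - -(r2 A R)))) (fun s η ε hs hη hε => by
      have hE'k : |p.2 + ε| ≤ k := by
        have := abs_add_le p.2 ε
        linarith [mul_nonneg (Nat.cast_nonneg n : (0 : ℝ) ≤ n) hr0.le]
      obtain ⟨x, bb, c, ℓ, q1, q2, q3⟩ := LI7_curve hLST hLGF hLJT hF le_rfl (g := p.1) hEk hτ (hs.trans hr1) ((LI7_kM hη hr1).trans hrF) hE'k (hε.trans hrF)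
      have hlen := q3 (-(r2 A R)) (r2 A R) (by linarith)
      have hE2 : |p.2 + ε| + n * r2 A R ≤ 2 * R ^ (-(1 / 4) : ℝ) := by
        have := abs_add_le p.2 ε
        linarith
      have hl : l0 ≤ Real.exp (n * A.tu R / (6 * C0 ^ 2)) * (ℓ (r2 A R) - ℓ (-(r2 A R))) := by
        have e1 : Real.exp (2 / 3 * Real.log R - 1) ≤ Real.exp (n * A.tu R / (6 * C0 ^ 2)) * Real.exp ((A.tu R - 2) / (3 * C0 ^ 2)) := by
          rw [← Real.exp_add, Real.exp_le_exp]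
          have h2 : (n : ℝ) * A.tu R / (6 * C0 ^ 2) + (A.tu R - 2) / (3 * C0 ^ 2) = ((((n + 1 : ℕ) : ℝ) * A.tu R) + (A.tu R - 4)) / (6 * C0 ^ 2) := by
            push_cast
            field_simp
            ring
          rw [h2, le_div_iff₀ (by positivity)]
          have h3 : (1 : ℝ) ≤ C0 ^ 2 := one_le_pow₀ hC01
          rw [hcb] at hb1
          nlinarith
        have e2 : Real.exp (2 / 3 * Real.log R - 1) = R ^ (2 / 3 : ℝ) * Real.exp (-1) := by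
          rw [Real.rpow_def_of_pos hRp, ← Real.exp_add]
          congr 1
          ring
        have e3 : R ^ (-(1 / 2) : ℝ) ≤ r2 A R := by
          unfold r2
          exact Real.rpow_le_rpow_of_exponent_le hR1 (by linarith)
        have e4 : R ^ (2 / 3 : ℝ) * R ^ (-(1 / 2) : ℝ) = R ^ (1 / 6 : ℝ) := by
          rw [← Real.rpow_add hRp]
          congr 1
          norm_num
        have e5 : 1 ≤ 2 * R ^ (1 / 6 : ℝ) * Real.exp (-1) * (1 / C0) := by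
          have h2 : Real.exp 1 * Real.exp (-1) = 1 := by
            rw [← Real.exp_add]
            simp
          have h3 := mul_le_mul_of_nonneg_right h16 (show 0 ≤ Real.exp (-1) * (1 / C0) by positivity)
          have h4 : Real.exp 1 * C0 * (Real.exp (-1) * (1 / C0)) = 1 := by
            calc Real.exp 1 * C0 * (Real.exp (-1) * (1 / C0)) = (Real.exp 1 * Real.exp (-1)) * (C0 * (1 / C0)) := by ring
              _ = 1 := by rw [h2]; field_simp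
          linarith
        have e6 : 0 ≤ Real.exp (n * A.tu R / (6 * C0 ^ 2)) := (Real.exp_pos _).le
        calc l0 ≤ 1 := hl1
          _ ≤ 2 * R ^ (1 / 6 : ℝ) * Real.exp (-1) * (1 / C0) := e5
          _ = (R ^ (2 / 3 : ℝ) * Real.exp (-1)) * (1 / C0 * (2 * R ^ (-(1 / 2) : ℝ))) := by rw [← e4]; ring
          _ ≤ (Real.exp (n * A.tu R / (6 * C0 ^ 2)) * Real.exp ((A.tu R - 2) / (3 * C0 ^ 2))) * (1 / C0 * (2 * r2 A R)) := by
              rw [← e2]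
              refine mul_le_mul e1 ?_ (by positivity) (by positivity)
              exact mul_le_mul_of_nonneg_left (by linarith) (by positivity)
          _ = Real.exp (n * A.tu R / (6 * C0 ^ 2)) * (1 / C0 * Real.exp ((A.tu R - 2) / (3 * C0 ^ 2)) * (r2 A R - -(r2 A R))) := by ring
          _ ≤ Real.exp (n * A.tu R / (6 * C0 ^ 2)) * (ℓ (r2 A R) - ℓ (-(r2 A R))) := mul_le_mul_of_nonneg_left hlen e6
      have hH : ∀ (E : ℝ) (γ : ℝ → SL(2, ℝ)) (x b c ℓ : ℝ → ℝ) (v v' : ℝ), |E| ≤ 2 * R ^ (-(1 / 4) : ℝ) → RN C0 (FM C0) 2 D E γ x b c ℓ → v < v' → l0 ≤ ℓ v' - ℓ v →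
          ∫⁻ u in Icc v v', V (γ u, E) ≤ ENNReal.ofReal (R ^ (-(2 * th)) * (v' - v)) := by
        intro E γ x b c ℓ v v' hE hγ hv hl
        have h2 := hLL R D hRR1 hF hU E γ x b c ℓ v v' hE hγ hv hl
        rw [hV, htu]
        exact h2
      exact ⟨hIB R D V (R ^ (-(2 * th))) l0 hRR3 hF (hPhi (A.tu R)) (hPV A R) hVm (by positivity) hl0 hH n (p.2 + ε) _ x bb c ℓ _ _ hE2 q1 (by linarith) hl,
        hIB R D V (R ^ (-(2 * th))) l0 hRR3 hF (hPhi (A.tu R)) (hPV A R) hVm (by positivity) hl0 hH n (p.2 + ε) _ x bb c ℓ _ _ hE2 q2 (by linarith) hl⟩)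
  have key' : PVN D A R ((PVN D A R)^[n] V) p ≤ ENNReal.ofReal ((32 * r2 A R ^ 4) ^ (n + 1) * R ^ (-(2 * th))) := by
    refine (le_of_eq_of_le ?_ key).trans (le_of_eq ?_)
    · rfl
    · have h2 : (2 : ℝ≥0∞) = ENNReal.ofReal 2 := by simp
      rw [h2, ← ENNReal.ofReal_mul (by norm_num), ← ENNReal.ofReal_mul (by
        have : 0 ≤ r2 A R - -(r2 A R) := by linarith
        positivity)]
      congr 1
      ring
  refine (mul_le_mul_right key' _).trans ?_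
  rw [← ENNReal.ofReal_pow (by positivity), ← ENNReal.ofReal_mul (by positivity)]
  refine ENNReal.ofReal_le_ofReal ?_
  refine LI7_num R th C' A.z2 N0 (n + 1) hR1 (by linarith) hz20 hb2' ?_ hpi
  have h2 : (C' + 8) * A.z2 * N0 ≤ (C' + 8) * (th * e2 / (4 * cb * (C' + 8))) * N0 :=
    mul_le_mul_of_nonneg_right (mul_le_mul_of_nonneg_left hz2 (by linarith)) hN00
  refine h2.trans (le_of_eq ?_)
  rw [hN0]
  have : C' + 8 ≠ 0 := by linarith
  field_simp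
  ring

end Pool.Agent.VN
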